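import Mathlib
import Pool.Agent.Lib.P187f6b.Defs
import Pool.Agent.Lib.P187s.Family
import Pool.Agent.Lib.P187w.EEz
import Pool.Agent.Lib.BFIN.Coef
import Pool.Agent.Lib.BFIN.Main
import Pool.Agent.Lib.BVD.Value

/-!
# The best constant and the extremal functions on the whole range

For every `0 < l < 1` the best constant is the least solution of an explicit equation with two
real parameters, and every extremal function is a rotation of a member of an explicit family of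
Blaschke products of degree at most two. There is one threshold `c`, with
`3671 / 10000 < c ≤ 3672 / 10000`, such that the best constant is `1 / (1 + 2 l)` exactly when
`c ≤ l`, and for `l ≤ 3672 / 10000` the best constant is an explicit polynomial up to `3 / 10000`.
-/

set_option autoImplicit false

open Pool.Agent.P187f6b Pool.Agent.P187s Pool.Agent.P187w

namespace Pool.Agent.Results.MP_187f6b_an.FullRange

/-- The numbers `c_0 = a`, `c_1 = a ^ 2 (1 - l η) - 1`,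
`c_(n + 2) = a (1 - l η) c_(n + 1) + l η c_n`. -/
noncomputable def cf (l a : ℝ) (η : ℂ) : ℕ → ℂ
  | 0 => a
  | 1 => a ^ 2 * (1 - l * η) - 1
  | n + 2 => a * (1 - l * η) * cf l a η (n + 1) + l * η * cf l a η n

private lemma cf_eq (l a : ℝ) (η : ℂ) (n : ℕ) : BFIN.cf l a η n = cf l a η n := by
  induction n using Nat.twoStepInduction with
  | zero => rfl
  | one => rfl
  | more n ih1 ih2 => rw [cf, BFIN.cf, ih1, ih2]

/-- There is a threshold `c` with `3671 / 10000 < c ≤ 3672 / 10000` such that for `0 < l < 1`: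
the best constant `B l` is the least `r` in `[0, 1)` for which
`l + (1 - l ^ 2) * ∑ ‖c_n‖ r ^ (n + 1) = 1` for some `0 ≤ a ≤ 1` and `‖η‖ = 1`, where
`c_n = cf l a η n`; `B l = 1 / (1 + 2 l)` if and only if `c ≤ l`; and every `f` in the
class with `maj l f (B l) = 1` is of the form `f z = GG l a η (ω z)` with `‖η‖ = ‖ω‖ = 1`,
`0 ≤ a ≤ 1`, and `a < 1` if `l < c`, `a = 1` if `c < l`, where `GG l a η` is
`(l + η Q) / (1 + l η Q)` with `Q = z (a - z) / (1 - a z)`. For `l ≤ 3672 / 10000` the value `B l`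
is `0.70685 - 0.3526 l + 0.062 l ^ 3 - 12.3 l ^ 8` up to `3 / 10000`. -/
theorem result : ∃ c : ℝ, 3671 / 10000 < c ∧ c ≤ 3672 / 10000 ∧ ∀ l : ℝ, 0 < l → l < 1 →
    IsLeast {r : ℝ | 0 ≤ r ∧ r < 1 ∧ ∃ (a : ℝ) (η : ℂ), 0 ≤ a ∧ a ≤ 1 ∧ ‖η‖ = 1 ∧
      l + (1 - l ^ 2) * ∑' n : ℕ, ‖cf l a η n‖ * r ^ (n + 1) = 1} (BB l) ∧
    (BB l = 1 / (1 + 2 * l) ↔ c ≤ l) ∧
    (l ≤ 3672 / 10000 →
      |BB l - (70685 / 100000 - 3526 / 10000 * l + 62 / 1000 * l ^ 3 - 123 / 10 * l ^ 8)| ≤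
        3 / 10000) ∧
    ∀ f ∈ FClass l, maj l f (BB l) = 1 →
      ∃ (a : ℝ) (η ω : ℂ), 0 ≤ a ∧ a ≤ 1 ∧ (l < c → a < 1) ∧ (c < l → a = 1) ∧ ‖η‖ = 1 ∧
        ‖ω‖ = 1 ∧ ∀ z : ℂ, ‖z‖ < 1 → f z = GG l a η (ω * z) := by
  obtain ⟨c, h1, h2, h⟩ :=
    full_range BFIN.hB BFIN.hfar BFIN.hnear BFIN.hlev BFIN.hfam BFIN.hR
  refine ⟨c, h1, h2, fun l hl0 hl1 => ?_⟩
  obtain ⟨h3, h4, h5⟩ := h l hl0 hl1
  refine ⟨?_, h4, fun h6 => BVD.value hl0 h6, h5⟩
  have e : {r : ℝ | 0 ≤ r ∧ r < 1 ∧ ∃ (a : ℝ) (η : ℂ), 0 ≤ a ∧ a ≤ 1 ∧ ‖η‖ = 1 ∧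
      l + (1 - l ^ 2) * ∑' n : ℕ, ‖cf l a η n‖ * r ^ (n + 1) = 1} =
      {r : ℝ | 0 ≤ r ∧ r < 1 ∧ ∃ (a : ℝ) (η : ℂ), 0 ≤ a ∧ a ≤ 1 ∧ ‖η‖ = 1 ∧
        maj l (GG l a η) r = 1} := by
    ext r
    simp only [Set.mem_ofPred_eq]
    refine and_congr_right fun hr0 => and_congr_right fun hr1 => exists_congr fun a =>
      exists_congr fun η => and_congr_right fun ha0 => and_congr_right fun ha1 =>
      and_congr_right fun hη => ?_
    rw [BFIN.maj_series hl0 hl1 ha0 ha1 hη hr0 hr1]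
    simp_rw [cf_eq]
  rw [e]
  exact h3

end Pool.Agent.Results.MP_187f6b_an.FullRange
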