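import Mathlib
import Pool.Agent.Lib.P187f6b.Defs
import Pool.Agent.Lib.P187o.Lower
import Pool.Agent.Lib.P187o.Upper

/-!
# The second order of the best constant at the origin

The best constant satisfies `B l = (2 - l) / (2 √2) + O (l ^ 3)`; in particular the expansion at
`l = 0` has no term of order `l ^ 2`.
-/

set_option autoImplicit false

open Pool.Agent.P187f6b Pool.Agent.P187o

namespace Pool.Agent.Results.MP_187f6b_an.SecondOrder

/-- There is a constant `C` such that `|B l - (2 - l) / (2 √2)| ≤ C l ^ 3` for all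
`0 < l < 1`. -/
theorem result : ∃ C : ℝ, ∀ l : ℝ, 0 < l → l < 1 →
    |BB l - (2 - l) / (2 * √2)| ≤ C * l ^ 3 := by
  have hK := KK_nonneg
  have e0 : ∀ l : ℝ, (2 - l) / (2 * √2) = nu * (1 - l / 2) := by
    intro l
    have h2 : √2 ≠ 0 := by positivity
    have h3 : √2 * √2 = 2 := Real.mul_self_sqrt (by norm_num)
    unfold nu
    rw [div_eq_iff (by positivity)]
    linear_combination (-(2 - l) / 2) * h3
  have hnu0 := nu_pos
  have hnu1 := nu_lt_one
  -- the range of small `l`
  set L : ℝ := min (1 / 10 ^ 24) (1 / (2 * (KK + 1))) with hL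
  have hL0 : 0 < L := lt_min (by positivity) (by positivity)
  have hL1 : L ≤ 1 / 10 ^ 24 := min_le_left _ _
  have hL2 : L ≤ 1 / (2 * (KK + 1)) := min_le_right _ _
  refine ⟨10 ^ 8 + (KK + 1) + 1 / L ^ 3, fun l h0 h1 => ?_⟩
  rw [e0]
  have hl3 : 0 < l ^ 3 := by positivity
  rcases le_or_gt l L with h | h
  · have ha := lower h0 (h.trans hL1)
    have hl12 : l ≤ 1 / 2 := (h.trans hL1).trans (by norm_num)
    have hb : BB l ≤ nu * (1 - (l / 2 - (KK + 1) * l ^ 3)) := by
      refine upper h0 hl12 ?_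
      have h3 : (KK + 1) * l ≤ 1 / 2 := by
        have h4 := h.trans hL2
        rw [le_div_iff₀ (by positivity)] at h4
        linarith
      have h5 : (KK + 1) * l ^ 2 = (KK + 1) * l * l := by ring
      rw [h5]
      have : 0 ≤ (KK + 1) * l := by positivity
      nlinarith
    have h3 : 0 ≤ 1 / L ^ 3 * l ^ 3 := by positivity
    have h4 : nu * ((KK + 1) * l ^ 3) ≤ 1 * ((KK + 1) * l ^ 3) :=
      mul_le_mul_of_nonneg_right hnu1.le (by positivity)
    have h5 : nu * (10 ^ 8 * l ^ 3) ≤ 1 * (10 ^ 8 * l ^ 3) :=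
      mul_le_mul_of_nonneg_right hnu1.le (by positivity)
    have h6 : 0 ≤ (KK + 1) * l ^ 3 := by positivity
    rw [abs_le]
    constructor
    · nlinarith
    · nlinarith
  · have hB0 : 0 ≤ BB l := Real.sSup_nonneg (fun r hr => hr.1)
    have hB1 : BB l ≤ 1 := Real.sSup_le (fun r hr => hr.2.1.le) zero_le_one
    have h2 : 0 ≤ nu * (1 - l / 2) := mul_nonneg hnu0.le (by linarith)
    have h3 : nu * (1 - l / 2) ≤ 1 := by nlinarith
    have h4 : |BB l - nu * (1 - l / 2)| ≤ 1 := by
      rw [abs_le]; constructor <;> linarith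
    have h5 : 1 ≤ 1 / L ^ 3 * l ^ 3 := by
      rw [one_div, inv_mul_eq_div, le_div_iff₀ (by positivity), one_mul]
      exact pow_le_pow_left₀ hL0.le h.le 3
    have h6 : 0 ≤ (10 ^ 8 + (KK + 1)) * l ^ 3 := by positivity
    nlinarith

end Pool.Agent.Results.MP_187f6b_an.SecondOrder
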