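import Mathlib
import Pool.Agent.Lib.P187f6b.Defs
import Pool.Agent.Lib.P187f6b.Upper

/-!
# An upper bound for the best constant on the whole range
-/

set_option autoImplicit false

open Complex Metric Set
open Pool.Agent.P187f6b

namespace Pool.Agent.Results.MP_187f6b_an.UpperBound

/-- For `0 < l < 1 / 2`,
`B l ≤ √( √(1 - 2 l²) / ((1 + l) (√(1 - 2 l²) + √(1 - l²))) )`. -/
theorem result : ∀ l : ℝ, 0 < l → l < 1/2 →
    BB l ≤ √(√(1 - 2 * l ^ 2) / ((1 + l) * (√(1 - 2 * l ^ 2) + √(1 - l ^ 2)))) := by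
  intro l h1 h2
  refine csSup_le ⟨0, le_refl _, by norm_num, fun f _ => ?_⟩ (fun r hr => ?_)
  · simp only [maj]
    simp only [ne_eq, Nat.add_eq_zero_iff, one_ne_zero, and_false, not_false_eq_true, zero_pow,
      mul_zero, tsum_zero, add_zero]
    linarith
  · exact Real.le_sqrt_of_sq_le (upper_of_maj_le h1 h2 hr.1 hr.2.1 hr.2.2)

end Pool.Agent.Results.MP_187f6b_an.UpperBound
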